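import Pool.Agent.Helper12_Clust.Wron

set_option autoImplicit false

/-! The N-term ABC estimate for a minimal linear relation between products of powers. -/

namespace Pool.Agent.Helper12_Clust

open MvPolynomial

variable {σ k : Type} [Field k]

/-- The signed maximal minors of an `n × (n+1)` matrix are proportional to a kernel vector. -/
theorem minors_proportional {R : Type} [CommRing R] [IsDomain R] {n : ℕ}
    (N : Matrix (Fin n) (Fin (n + 1)) R) (b : Fin (n + 1) → R) (hb : b ≠ 0)
    (h : N.mulVec b = 0) (i j : Fin (n + 1)) :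
    (-1) ^ (i : ℕ) * b j * (N.submatrix id i.succAbove).det
      = (-1) ^ (j : ℕ) * b i * (N.submatrix id j.succAbove).det := by
  set x : Fin (n + 1) → R := Pi.single i (b j) - Pi.single j (b i) with hx
  set M : Matrix (Fin (n + 1)) (Fin (n + 1)) R := Matrix.of (Fin.cons x (fun a => N a)) with hM
  have h1 : M.mulVec b = 0 := by
    ext a
    refine Fin.cases ?_ (fun a => ?_) a
    · rw [Matrix.mulVec, dotProduct]
      simp only [hM, Matrix.of_apply, Fin.cons_zero, hx, Pi.sub_apply, sub_mul,
        Finset.sum_sub_distrib, Pi.zero_apply]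
      rw [Finset.sum_eq_single i, Finset.sum_eq_single j]
      · simp; ring
      · intro t _ ht; simp [Pi.single_eq_of_ne ht]
      · simp
      · intro t _ ht; simp [Pi.single_eq_of_ne ht]
      · simp
    · have := congrFun h a
      rw [Matrix.mulVec, dotProduct] at this ⊢
      simpa [hM] using this
  have h2 : M.det = 0 := Matrix.exists_mulVec_eq_zero_iff.1 ⟨b, hb, h1⟩
  rw [Matrix.det_succ_row_zero] at h2
  have h3 : ∀ t : Fin (n + 1), (-1) ^ (t : ℕ) * M 0 t * (M.submatrix Fin.succ t.succAbove).det
      = (Pi.single i (b j) - Pi.single j (b i) : Fin (n + 1) → R) t *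
        ((-1) ^ (t : ℕ) * (N.submatrix id t.succAbove).det) := by
    intro t
    have : M.submatrix Fin.succ t.succAbove = N.submatrix id t.succAbove := by
      ext a c; simp [hM]
    rw [this]
    simp only [hM, Matrix.of_apply, Fin.cons_zero, hx]
    ring
  simp_rw [h3, Pi.sub_apply, sub_mul] at h2
  rw [Finset.sum_sub_distrib, Finset.sum_eq_single i, Finset.sum_eq_single j] at h2
  · rw [Pi.single_eq_same, Pi.single_eq_same] at h2
    linear_combination h2
  · intro t _ ht; simp [Pi.single_eq_of_ne ht]
  · simp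
  · intro t _ ht; simp [Pi.single_eq_of_ne ht]
  · simp

theorem totalDegree_det_le {n : ℕ} (M : Matrix (Fin n) (Fin n) (MvPolynomial σ k)) (d : Fin n → ℕ)
    (h : ∀ a i, (M a i).totalDegree ≤ d i) : M.det.totalDegree ≤ ∑ i, d i := by
  rw [Matrix.det_apply']
  refine totalDegree_finsetSum_le ?_
  intro s _
  refine (totalDegree_mul _ _).trans ?_
  have h1 : (((Equiv.Perm.sign s : ℤ) : MvPolynomial σ k)).totalDegree = 0 := by
    rcases Int.units_eq_one_or (Equiv.Perm.sign s) with h | h <;> rw [h] <;> simp
  rw [h1, zero_add]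
  refine (totalDegree_finsetProd _ _).trans ?_
  exact Finset.sum_le_sum fun i _ => h _ _

theorem pow_dvd_det {n : ℕ} (M : Matrix (Fin n) (Fin n) (MvPolynomial σ k))
    (p : MvPolynomial σ k) (v : Fin n → ℕ) (h : ∀ a i, p ^ (v i) ∣ M a i) :
    p ^ (∑ i, v i) ∣ M.det := by
  rw [Matrix.det_apply']
  refine Finset.dvd_sum fun s _ => ?_
  refine Dvd.dvd.mul_left ?_ _
  rw [← Finset.prod_pow_eq_pow_sum]
  exact Finset.prod_dvd_prod_of_dvd _ _ fun i _ => h _ _

theorem totalDegree_prod_pow {J : Type} (s : Finset J) (p : J → MvPolynomial σ k)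
    (hp : ∀ j, p j ≠ 0) (m : J → ℕ) :
    (∏ j ∈ s, p j ^ m j).totalDegree = ∑ j ∈ s, m j * (p j).totalDegree := by
  classical
  induction s using Finset.induction_on with
  | empty => simp
  | insert a s ha ih =>
    rw [Finset.prod_insert ha, Finset.sum_insert ha, totalDegree_mul_of_isDomain, ih]
    · congr 1
      induction m a with
      | zero => simp
      | succ n ihn =>
        rw [pow_succ, totalDegree_mul_of_isDomain (pow_ne_zero _ (hp a)) (hp a), ihn]; ring
    · exact pow_ne_zero _ (hp a)
    · exact Finset.prod_ne_zero_iff.2 fun j _ => pow_ne_zero _ (hp j)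

/-- The estimate for a minimal relation, when no `p j` divides all terms. -/
theorem circuit_fin [CharZero k] {J : Type} [Fintype J] (p : J → MvPolynomial σ k)
    (hp : ∀ j, p j ≠ 0) (hcop : Pairwise fun i j => IsRelPrime (p i) (p j)) (n : ℕ)
    (A : Fin (n + 1) → MvPolynomial σ k) (e : Fin (n + 1) → J → ℕ)
    (T : Fin (n + 1) → MvPolynomial σ k) (hT : ∀ i, T i = A i * ∏ j, p j ^ e i j)
    (b : Fin (n + 1) → k) (hb : ∀ i, b i ≠ 0) (hrel : ∑ i, b i • T i = 0)
    (hind : ∀ i0 : Fin (n + 1), LinearIndependent k fun i : Fin n => T (i0.succAbove i))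
    (hmin : ∀ j, ∃ i, e i j = 0) (i0 : Fin (n + 1)) :
    ∑ j, e i0 j * (p j).totalDegree
      ≤ n * (n - 1) * ∑ j, (p j).totalDegree
        + ∑ i : Fin n, (A (i0.succAbove i)).totalDegree := by
  classical
  obtain ⟨l, hl, hdet⟩ := exists_wronskian n (fun i => T (i0.succAbove i)) (hind i0)
  set N : Matrix (Fin n) (Fin (n + 1)) (MvPolynomial σ k) :=
    Matrix.of fun a i => D (l a) (T i) with hN
  have hw0 : (N.submatrix id i0.succAbove).det ≠ 0 := hdet
  have hker : N.mulVec (fun i => C (b i)) = 0 := by
    ext1 a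
    rw [Matrix.mulVec, dotProduct]
    have h1 := congrArg (D (l a)) hrel
    rw [map_sum, map_zero] at h1
    rw [Pi.zero_apply, ← h1]
    apply Finset.sum_congr rfl
    intro i _
    rw [map_smul, ← C_mul']
    simp only [hN, Matrix.of_apply]; ring
  have hbne : (fun i => C (b i) : Fin (n + 1) → MvPolynomial σ k) ≠ 0 := by
    intro h
    have := congrFun h 0
    simp only [Pi.zero_apply, C_eq_zero] at this
    exact hb 0 this
  -- exponents in the Wronskian
  set m : J → ℕ := fun j => (∑ i, e i j) - n * (n - 1) with hm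
  have hdvd : ∀ j, p j ^ m j ∣ (N.submatrix id i0.succAbove).det := by
    intro j
    obtain ⟨i1, hi1⟩ := hmin j
    have h1 : p j ^ m j ∣ (N.submatrix id i1.succAbove).det := by
      have h2 := pow_dvd_det (N.submatrix id i1.succAbove) (p j)
        (fun i => e (i1.succAbove i) j - (n - 1)) (by
          intro a i
          simp only [hN, Matrix.submatrix_apply, id_eq, Matrix.of_apply]
          have h3 : p j ^ e (i1.succAbove i) j ∣ T (i1.succAbove i) := by
            rw [hT]
            exact Dvd.dvd.mul_left (Finset.dvd_prod_of_mem (fun j => p j ^ e (i1.succAbove i) j)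
              (Finset.mem_univ j)) _
          refine (pow_dvd_pow _ ?_).trans (pow_dvd_D (l a) h3)
          have := hl a; have := a.2
          omega)
      refine (pow_dvd_pow _ ?_).trans h2
      rw [hm]
      simp only
      rw [Fin.sum_univ_succAbove _ i1, hi1, zero_add]
      have h4 : ∑ i : Fin n, e (i1.succAbove i) j
          ≤ ∑ i : Fin n, ((e (i1.succAbove i) j - (n - 1)) + (n - 1)) :=
        Finset.sum_le_sum fun i _ => by omega
      rw [Finset.sum_add_distrib, Finset.sum_const, Finset.card_univ, Fintype.card_fin,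
        smul_eq_mul] at h4
      omega
    have h5 := minors_proportional N _ hbne hker i0 i1
    have hu : IsUnit ((-1 : MvPolynomial σ k) ^ (i0 : ℕ) * C (b i1)) := by
      refine IsUnit.mul (IsUnit.pow _ (by simp)) ((isUnit_iff_ne_zero.2 (hb i1)).map C)
    rw [← hu.dvd_mul_left, h5]
    exact Dvd.dvd.mul_left h1 _
  have hprod : ∏ j, p j ^ m j ∣ (N.submatrix id i0.succAbove).det := by
    refine Fintype.prod_dvd_of_isRelPrime ?_ hdvd
    intro i j hij
    exact (hcop hij).pow
  have h1 := totalDegree_le_of_dvd_of_isDomain hprod hw0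
  rw [totalDegree_prod_pow _ _ hp] at h1
  have h2 := totalDegree_det_le (N.submatrix id i0.succAbove)
    (fun i => (A (i0.succAbove i)).totalDegree + ∑ j, e (i0.succAbove i) j * (p j).totalDegree)
    (by
      intro a i
      simp only [hN, Matrix.submatrix_apply, id_eq, Matrix.of_apply]
      refine (totalDegree_D_le _ _).trans ?_
      rw [hT]
      refine (totalDegree_mul _ _).trans ?_
      rw [totalDegree_prod_pow _ _ hp])
  rw [Finset.sum_add_distrib] at h2
  have h3 : ∑ j, (e i0 j * (p j).totalDegree
      + ∑ i : Fin n, e (i0.succAbove i) j * (p j).totalDegree)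
      ≤ ∑ j, (m j * (p j).totalDegree + n * (n - 1) * (p j).totalDegree) := by
    refine Finset.sum_le_sum fun j _ => ?_
    rw [← Finset.sum_mul, ← add_mul, ← add_mul]
    refine Nat.mul_le_mul_right _ ?_
    rw [hm]
    simp only
    rw [Fin.sum_univ_succAbove _ i0]
    omega
  rw [Finset.sum_add_distrib, Finset.sum_add_distrib, ← Finset.mul_sum,
    Finset.sum_comm (s := Finset.univ) (t := (Finset.univ : Finset (Fin n)))] at h3
  omega

end Pool.Agent.Helper12_Clust
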