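import Mathlib

set_option autoImplicit false

/-! Iterated partial derivatives of multivariate polynomials. -/

namespace Pool.Agent.Helper12_Clust

open MvPolynomial

variable {σ k : Type} [Field k]

/-- Iterated partial derivative along a list of variables. -/
noncomputable def D : List σ → (MvPolynomial σ k →ₗ[k] MvPolynomial σ k)
  | [] => LinearMap.id
  | i :: l => (pderiv i).toLinearMap ∘ₗ D l

theorem D_nil (f : MvPolynomial σ k) : D ([] : List σ) f = f := rfl

theorem D_cons (i : σ) (l : List σ) (f : MvPolynomial σ k) : D (i :: l) f = pderiv i (D l f) := rfl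

theorem D_C_mul (l : List σ) (a : k) (f : MvPolynomial σ k) : D l (C a * f) = C a * D l f := by
  rw [C_mul', map_smul, C_mul']

theorem totalDegree_pderiv_lt (i : σ) (f : MvPolynomial σ k) (h : pderiv i f ≠ 0) :
    (pderiv i f).totalDegree + 1 ≤ f.totalDegree := by
  classical
  have h1 : ∀ m ∈ (pderiv i f).support, m.degree + 1 ≤ f.totalDegree := by
    intro m hm
    rw [mem_support_iff, coeff_pderiv] at hm
    have h2 : (m + Finsupp.single i 1) ∈ f.support := by
      rw [mem_support_iff]; intro h0; rw [h0, zero_mul] at hm; exact hm rfl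
    have h3 := le_totalDegree h2
    have h4 : (m + Finsupp.single i 1).degree = m.degree + 1 := by
      rw [map_add, Finsupp.degree_single]
    have h5 : ((m + Finsupp.single i 1).sum fun _ e => e) = (m + Finsupp.single i 1).degree := rfl
    rw [h5, h4] at h3
    exact h3
  obtain ⟨m0, hm0⟩ : (pderiv i f).support.Nonempty := by
    rw [Finset.nonempty_iff_ne_empty]; simpa using h
  have h6 := h1 m0 hm0
  have h7 : (pderiv i f).totalDegree ≤ f.totalDegree - 1 := by
    refine Finset.sup_le ?_
    intro m hm
    have := h1 m hm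
    have h5 : (m.sum fun _ e => e) = m.degree := rfl
    omega
  omega

theorem totalDegree_pderiv_le (i : σ) (f : MvPolynomial σ k) :
    (pderiv i f).totalDegree ≤ f.totalDegree := by
  by_cases h : pderiv i f = 0
  · rw [h]; simp
  · have := totalDegree_pderiv_lt i f h; omega

theorem totalDegree_D_le (l : List σ) (f : MvPolynomial σ k) :
    (D l f).totalDegree ≤ f.totalDegree := by
  induction l with
  | nil => rfl
  | cons i l ih => rw [D_cons]; exact (totalDegree_pderiv_le i _).trans ih

theorem pow_dvd_pderiv (i : σ) {p f : MvPolynomial σ k} {m : ℕ} (h : p ^ m ∣ f) :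
    p ^ (m - 1) ∣ pderiv i f := by
  rcases m with _ | m
  · simp
  · obtain ⟨g, rfl⟩ := h
    rw [pderiv_mul, pderiv_pow]
    simp only [Nat.add_sub_cancel]
    refine dvd_add ?_ ?_
    · refine Dvd.dvd.mul_right ?_ _
      refine Dvd.dvd.mul_right ?_ _
      exact Dvd.intro_left _ rfl
    · rw [pow_succ, mul_assoc]
      exact Dvd.intro _ rfl

theorem pow_dvd_D (l : List σ) {p f : MvPolynomial σ k} {m : ℕ} (h : p ^ m ∣ f) :
    p ^ (m - l.length) ∣ D l f := by
  induction l with
  | nil => exact h
  | cons i l ih =>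
    rw [D_cons, List.length_cons]
    have := pow_dvd_pderiv i ih
    rwa [Nat.sub_sub] at this

/-- In characteristic zero a polynomial with vanishing gradient is constant. -/
theorem eq_C_of_pderiv_eq_zero [CharZero k] {f : MvPolynomial σ k} (h : ∀ i, pderiv i f = 0) :
    f = C (coeff 0 f) := by
  classical
  ext m
  rw [coeff_C]
  split_ifs with hm
  · rw [← hm]
  · have : ∃ i, m i ≠ 0 := by
      by_contra h1
      push Not at h1
      apply hm
      ext i; rw [h1 i]; rfl
    obtain ⟨i, hi⟩ := this
    have h2 := congrArg (coeff (m - Finsupp.single i 1)) (h i)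
    rw [coeff_pderiv, coeff_zero] at h2
    have h3 : m - Finsupp.single i 1 + Finsupp.single i 1 = m := by
      apply tsub_add_cancel_of_le
      rw [Finsupp.single_le_iff]; omega
    rw [h3] at h2
    have h4 : (((m - Finsupp.single i 1 : σ →₀ ℕ) i : k) + 1) ≠ 0 :=
      Nat.cast_add_one_ne_zero _
    rcases mul_eq_zero.1 h2 with h5 | h5
    · exact h5
    · exact absurd h5 h4

/-- If `q ∂ p = p ∂ q` for all partial derivatives then `p` is a scalar multiple of `q`. -/
theorem eq_C_mul_of_wronskian [CharZero k] {p q : MvPolynomial σ k} (hq : q ≠ 0)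
    (h : ∀ i, q * pderiv i p = p * pderiv i q) : ∃ c : k, p = C c * q := by
  by_cases hp : p = 0
  · exact ⟨0, by rw [hp]; simp⟩
  obtain ⟨p', q', g, hrel, hp', hq'⟩ := UniqueFactorizationMonoid.exists_reduced_factors p hp q
  have hg : g ≠ 0 := by rintro rfl; rw [zero_mul] at hp'; exact hp hp'.symm
  have hp0 : p' ≠ 0 := by rintro rfl; rw [mul_zero] at hp'; exact hp hp'.symm
  have hq0 : q' ≠ 0 := by rintro rfl; rw [mul_zero] at hq'; exact hq hq'.symm
  have key : ∀ i, q' * pderiv i p' = p' * pderiv i q' := by
    intro i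
    have h1 := h i
    rw [← hp', ← hq', pderiv_mul, pderiv_mul] at h1
    have h2 : (g * g) * (q' * pderiv i p') = (g * g) * (p' * pderiv i q') := by
      linear_combination h1
    exact mul_left_cancel₀ (mul_ne_zero hg hg) h2
  have zero_of_dvd : ∀ (f : MvPolynomial σ k) (i : σ), f ≠ 0 → f ∣ pderiv i f → pderiv i f = 0 := by
    intro f i hf hd
    by_contra h0
    have h1 := totalDegree_pderiv_lt i f h0
    have h2 := totalDegree_le_of_dvd_of_isDomain hd h0
    omega
  have hp1 : ∀ i, pderiv i p' = 0 := by
    intro i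
    apply zero_of_dvd p' i hp0
    exact hrel.dvd_of_dvd_mul_left (Dvd.intro _ (key i).symm)
  have hq1 : ∀ i, pderiv i q' = 0 := by
    intro i
    apply zero_of_dvd q' i hq0
    exact hrel.symm.dvd_of_dvd_mul_left (Dvd.intro _ (key i))
  have hp2 := eq_C_of_pderiv_eq_zero hp1
  have hq2 := eq_C_of_pderiv_eq_zero hq1
  have hqc : coeff 0 q' ≠ 0 := by
    intro h0; rw [h0, C_0] at hq2; exact hq0 hq2
  refine ⟨coeff 0 p' / coeff 0 q', ?_⟩
  have hc : C (coeff 0 p' / coeff 0 q') * q' = p' := by
    calc C (coeff 0 p' / coeff 0 q') * q'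
        = C (coeff 0 p' / coeff 0 q') * C (coeff 0 q') := congrArg _ hq2
      _ = C (coeff 0 p') := by rw [← C_mul, div_mul_cancel₀ _ hqc]
      _ = p' := hp2.symm
  rw [← hp', ← hq', mul_left_comm, hc]

end Pool.Agent.Helper12_Clust
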