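import Pool.Agent.Helper12_Clust.Circuit

set_option autoImplicit false

/-! Cluster decomposition of a vanishing sum of products of high powers. -/

namespace Pool.Agent.Helper12_Clust

open MvPolynomial

variable {σ k ι J : Type} [Field k] [Fintype ι] [Fintype J]

/-- The `i`-th term `A_i * ∏_j p_j ^ e_ij`. -/
noncomputable def term (A : ι → MvPolynomial σ k) (p : J → MvPolynomial σ k) (e : ι → J → ℕ)
    (i : ι) : MvPolynomial σ k := A i * ∏ j, p j ^ e i j

/-- Degree of the part of the power product of term `i` that is not in the one of term `i'`. -/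
noncomputable def gap (p : J → MvPolynomial σ k) (e : ι → J → ℕ) (i i' : ι) : ℕ :=
  ∑ j, (e i j - e i' j) * (p j).totalDegree

/-- `(N-1)(N-2) ∑ deg p_j + ∑ deg A_i`, where `N` is the number of terms. -/
noncomputable def bound (A : ι → MvPolynomial σ k) (p : J → MvPolynomial σ k) : ℕ :=
  (Fintype.card ι - 1) * (Fintype.card ι - 2) * (∑ j, (p j).totalDegree)
    + ∑ i, (A i).totalDegree

/-- In a minimal relation any two terms are close. -/
theorem circuit_close [CharZero k] (A : ι → MvPolynomial σ k) (p : J → MvPolynomial σ k)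
    (e : ι → J → ℕ) (hp : ∀ j, p j ≠ 0) (hcop : Pairwise fun i j => IsRelPrime (p i) (p j))
    (b : ι → k) (hrel : ∑ i, b i • term A p e i = 0)
    (hmin : ∀ d : ι → k, (∀ i, d i ≠ 0 → b i ≠ 0) → ∑ i, d i • term A p e i = 0 →
      (∃ i, b i ≠ 0 ∧ d i = 0) → d = 0) (i0 i1 : ι) (h0 : b i0 ≠ 0) (h1 : b i1 ≠ 0) :
    gap p e i0 i1 ≤ bound A p := by
  classical
  set S : Finset ι := Finset.univ.filter (fun i => b i ≠ 0) with hS
  have hmemS : ∀ i, i ∈ S ↔ b i ≠ 0 := fun i => by simp [hS]
  have hSne : S.Nonempty := ⟨i0, (hmemS i0).2 h0⟩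
  obtain ⟨n, hn⟩ : ∃ n, S.card = n + 1 := Nat.exists_eq_succ_of_ne_zero hSne.card_pos.ne'
  set f : Fin (n + 1) ≃ S := (S.equivFinOfCardEq hn).symm with hf
  -- the common part
  set m : J → ℕ := fun j => S.inf' hSne (fun i => e i j) with hm
  have hmle : ∀ i ∈ S, ∀ j, m j ≤ e i j := fun i hi j => Finset.inf'_le _ hi
  have hmatt : ∀ j, ∃ i ∈ S, e i j = m j := by
    intro j
    obtain ⟨i, hi, h⟩ := Finset.exists_mem_eq_inf' hSne (fun i => e i j)
    exact ⟨i, hi, h.symm⟩
  set G : MvPolynomial σ k := ∏ j, p j ^ m j with hG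
  have hG0 : G ≠ 0 := Finset.prod_ne_zero_iff.2 fun j _ => pow_ne_zero _ (hp j)
  set T : Fin (n + 1) → MvPolynomial σ k := fun a => A (f a) * ∏ j, p j ^ (e (f a) j - m j)
    with hT
  have hGT : ∀ a, G * T a = term A p e (f a) := by
    intro a
    rw [hT, hG, term]
    simp only
    rw [mul_left_comm, ← Finset.prod_mul_distrib]
    congr 1
    apply Finset.prod_congr rfl
    intro j _
    rw [← pow_add]
    congr 1
    have := hmle (f a) (f a).2 j
    omega
  -- transport of relations
  have htrans : ∀ d : Fin (n + 1) → k, ∑ a, d a • T a = 0 →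
      ∑ i, (if h : i ∈ S then d (f.symm ⟨i, h⟩) else 0) • term A p e i = 0 := by
    intro d hd
    have e1 : ∑ i, (if h : i ∈ S then d (f.symm ⟨i, h⟩) else 0) • term A p e i
        = ∑ i ∈ S.attach, d (f.symm i) • term A p e i := by
      rw [← Finset.sum_subset (Finset.subset_univ S), ← Finset.sum_attach]
      · apply Finset.sum_congr rfl
        intro i _
        rw [dif_pos i.2]
      · intro i _ hi
        rw [dif_neg hi, zero_smul]
    rw [e1]
    have e2 : ∑ i ∈ S.attach, d (f.symm i) • term A p e i
        = ∑ a, d a • term A p e (f a) := by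
      rw [Finset.attach_eq_univ]
      exact (Fintype.sum_equiv f _ _ (fun a => by rw [Equiv.symm_apply_apply])).symm
    rw [e2]
    have e3 : ∑ a, d a • term A p e (f a) = G * ∑ a, d a • T a := by
      rw [Finset.mul_sum]
      apply Finset.sum_congr rfl
      intro a _
      rw [← hGT, mul_smul_comm]
    rw [e3, hd, mul_zero]
  have hrelT : ∑ a, b (f a) • T a = 0 := by
    have e3 : ∑ a, b (f a) • term A p e (f a) = G * ∑ a, b (f a) • T a := by
      rw [Finset.mul_sum]
      apply Finset.sum_congr rfl
      intro a _
      rw [← hGT, mul_smul_comm]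
    have e4 : ∑ a, b (f a) • term A p e (f a) = ∑ i, b i • term A p e i := by
      have e5 : ∑ i ∈ S, b i • term A p e i = ∑ i, b i • term A p e i :=
        Finset.sum_subset (Finset.subset_univ S) (fun i _ hi => by
          have : b i = 0 := by by_contra h; exact hi ((hmemS i).2 h)
          rw [this, zero_smul])
      rw [← e5, ← Finset.sum_attach S, Finset.attach_eq_univ]
      exact Fintype.sum_equiv f _ _ (fun a => rfl)
    rw [e4, hrel] at e3
    exact (mul_eq_zero.1 e3.symm).resolve_left hG0
  have hbf : ∀ a, b (f a) ≠ 0 := fun a => (hmemS _).1 (f a).2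
  have hind : ∀ a0 : Fin (n + 1), LinearIndependent k fun a : Fin n => T (a0.succAbove a) := by
    intro a0
    rw [Fintype.linearIndependent_iff]
    intro d hd
    set d' : Fin (n + 1) → k := a0.insertNth (α := fun _ => k) 0 d with hd'
    have hd0 : ∑ a, d' a • T a = 0 := by
      rw [Fin.sum_univ_succAbove _ a0]
      simp only [hd', Fin.insertNth_apply_same, Fin.insertNth_apply_succAbove]
      rw [zero_smul, zero_add]; exact hd
    have h3 := htrans d' hd0
    have h4 := hmin _ ?_ h3 ?_
    · intro a
      have h5 := congrFun h4 (f (a0.succAbove a))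
      rw [dif_pos (f (a0.succAbove a)).2] at h5
      simpa [hd'] using h5
    · intro i hi
      by_contra hbi
      have : i ∉ S := fun h => (hmemS i).1 h hbi
      rw [dif_neg this] at hi
      exact hi rfl
    · refine ⟨f a0, hbf a0, ?_⟩
      rw [dif_pos (f a0).2]
      simp [hd']
  have key := circuit_fin p hp hcop n (fun a => A (f a)) (fun a j => e (f a) j - m j) T
    (fun a => rfl) (fun a => b (f a)) hbf hrelT hind (by
      intro j
      obtain ⟨i, hi, h⟩ := hmatt j
      refine ⟨f.symm ⟨i, hi⟩, ?_⟩
      simp only [Equiv.apply_symm_apply]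
      omega) (f.symm ⟨i0, (hmemS i0).2 h0⟩)
  simp only [Equiv.apply_symm_apply] at key
  have hcard : n + 1 ≤ Fintype.card ι := by rw [← hn]; exact Finset.card_le_univ S
  have hA : ∑ a : Fin n, (A (f ((f.symm ⟨i0, (hmemS i0).2 h0⟩).succAbove a))).totalDegree
      ≤ ∑ i, (A i).totalDegree := by
    have e5 : ∑ a : Fin (n + 1), (A (f a)).totalDegree = ∑ i ∈ S, (A i).totalDegree := by
      rw [← Finset.sum_attach S, Finset.attach_eq_univ]
      exact Fintype.sum_equiv f _ _ (fun a => rfl)
    have e6 : ∑ i ∈ S, (A i).totalDegree ≤ ∑ i, (A i).totalDegree :=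
      Finset.sum_le_sum_of_subset (Finset.subset_univ S)
    rw [← e5, Fin.sum_univ_succAbove _ (f.symm ⟨i0, (hmemS i0).2 h0⟩)] at e6
    omega
  have hnn : n * (n - 1) * ∑ j, (p j).totalDegree
      ≤ (Fintype.card ι - 1) * (Fintype.card ι - 2) * ∑ j, (p j).totalDegree := by
    refine Nat.mul_le_mul_right _ ?_
    exact Nat.mul_le_mul (by omega) (by omega)
  have hgap : gap p e i0 i1 ≤ ∑ j, (e i0 j - m j) * (p j).totalDegree := by
    refine Finset.sum_le_sum fun j _ => Nat.mul_le_mul_right _ ?_
    have := hmle i1 ((hmemS i1).2 h1) j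
    omega
  unfold bound
  omega

open Classical in
/-- If close terms lie in the same class, then every relation holds class by class. -/
theorem cluster [CharZero k] {κ : Type} [DecidableEq κ] (A : ι → MvPolynomial σ k)
    (p : J → MvPolynomial σ k) (e : ι → J → ℕ) (hp : ∀ j, p j ≠ 0)
    (hcop : Pairwise fun i j => IsRelPrime (p i) (p j)) (cl : ι → κ)
    (hcl : ∀ i i', gap p e i i' ≤ bound A p → gap p e i' i ≤ bound A p → cl i = cl i') :
    ∀ (s : ℕ) (b : ι → k), (Finset.univ.filter (fun i => b i ≠ 0)).card = s →
      ∑ i, b i • term A p e i = 0 → ∀ c : κ,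
        ∑ i with cl i = c, b i • term A p e i = 0 := by
  intro s
  induction s using Nat.strong_induction_on with
  | _ s ih =>
    intro b hs hrel c
    by_cases hcase : ∃ d : ι → k, (∀ i, d i ≠ 0 → b i ≠ 0) ∧ ∑ i, d i • term A p e i = 0 ∧
        (∃ i, b i ≠ 0 ∧ d i = 0) ∧ d ≠ 0
    · obtain ⟨d, hd1, hd2, ⟨i1, hi1, hi1'⟩, hd4⟩ := hcase
      obtain ⟨i2, hi2⟩ : ∃ i2, d i2 ≠ 0 := by
        by_contra h
        push Not at h
        exact hd4 (funext h)
      have c1 : (Finset.univ.filter (fun i => d i ≠ 0)).card < s := by
        rw [← hs]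
        apply Finset.card_lt_card
        rw [Finset.ssubset_iff_of_subset]
        · exact ⟨i1, by simpa using hi1, by simpa using hi1'⟩
        · intro i hi
          simp only [Finset.mem_filter, Finset.mem_univ, true_and] at hi ⊢
          exact hd1 i hi
      have g1 := ih _ c1 d rfl hd2 c
      set t : k := b i2 / d i2 with ht
      set b' : ι → k := fun i => b i - t * d i with hb'
      have hb'2 : b' i2 = 0 := by
        simp only [hb', ht]
        rw [div_mul_cancel₀ _ hi2, sub_self]
      have c2 : (Finset.univ.filter (fun i => b' i ≠ 0)).card < s := by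
        rw [← hs]
        apply Finset.card_lt_card
        rw [Finset.ssubset_iff_of_subset]
        · exact ⟨i2, by simpa using hd1 i2 hi2, by simpa using hb'2⟩
        · intro i hi
          simp only [Finset.mem_filter, Finset.mem_univ, true_and] at hi ⊢
          intro h0
          apply hi
          have : d i = 0 := by by_contra h; exact hd1 i h h0
          simp only [hb']
          rw [h0, this]; ring
      have hr' : ∑ i, b' i • term A p e i = 0 := by
        have : ∑ i, b' i • term A p e i
            = ∑ i, b i • term A p e i - t • ∑ i, d i • term A p e i := by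
          rw [Finset.smul_sum, ← Finset.sum_sub_distrib]
          apply Finset.sum_congr rfl
          intro i _
          simp only [hb']
          rw [sub_smul, mul_smul]
        rw [this, hrel, hd2]; simp
      have g2 := ih _ c2 b' rfl hr' c
      have : ∑ i with cl i = c, b' i • term A p e i
          = ∑ i with cl i = c, b i • term A p e i - t • ∑ i with cl i = c, d i • term A p e i := by
        rw [Finset.smul_sum, ← Finset.sum_sub_distrib]
        apply Finset.sum_congr rfl
        intro i _
        simp only [hb']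
        rw [sub_smul, mul_smul]
      rw [g2, g1, smul_zero, sub_zero] at this
      exact this.symm
    · have hmin : ∀ d : ι → k, (∀ i, d i ≠ 0 → b i ≠ 0) → ∑ i, d i • term A p e i = 0 →
          (∃ i, b i ≠ 0 ∧ d i = 0) → d = 0 := by
        intro d h1 h2 h3
        by_contra h4
        exact hcase ⟨d, h1, h2, h3, h4⟩
      have hclose : ∀ i i', b i ≠ 0 → b i' ≠ 0 → cl i = cl i' := by
        intro i i' hi hi'
        exact hcl i i' (circuit_close A p e hp hcop b hrel hmin i i' hi hi')
          (circuit_close A p e hp hcop b hrel hmin i' i hi' hi)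
      by_cases hex : ∃ i, b i ≠ 0 ∧ cl i = c
      · obtain ⟨i1, hi1, hi1'⟩ := hex
        rw [← hrel]
        apply Finset.sum_subset (Finset.filter_subset _ _)
        intro i _ hi
        simp only [Finset.mem_filter, Finset.mem_univ, true_and] at hi
        have : b i = 0 := by
          by_contra h
          exact hi ((hclose i i1 h hi1).trans hi1')
        rw [this, zero_smul]
      · push Not at hex
        apply Finset.sum_eq_zero
        intro i hi
        simp only [Finset.mem_filter, Finset.mem_univ, true_and] at hi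
        have : b i = 0 := by
          by_contra h
          exact hex i h hi
        rw [this, zero_smul]

end Pool.Agent.Helper12_Clust
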