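import Pool.Agent.Helper12_Clust.Main

set_option autoImplicit false

/-! Reduction of a sum of products of powers with huge exponents to small exponents. -/

namespace Pool.Agent.Helper12_Clust

open MvPolynomial

variable {σ k ι J : Type} [Field k] [Fintype ι] [Fintype J]

/-- Two terms are joined if their power products differ by a part of degree at most
`bound A p` in both directions. -/
def clusterGraph (A : ι → MvPolynomial σ k) (p : J → MvPolynomial σ k) (e : ι → J → ℕ) :
    SimpleGraph ι where
  Adj i i' := i ≠ i' ∧ gap p e i i' ≤ bound A p ∧ gap p e i' i ≤ bound A p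
  symm := ⟨fun _ _ h => ⟨h.1.symm, h.2.2, h.2.1⟩⟩
  loopless := ⟨fun _ h => h.1 rfl⟩

open Classical in
/-- The cluster of the term `i0`: its connected component in `clusterGraph`. -/
noncomputable def clusterOf (A : ι → MvPolynomial σ k) (p : J → MvPolynomial σ k)
    (e : ι → J → ℕ) (i0 : ι) : Finset ι :=
  Finset.univ.filter fun i => (clusterGraph A p e).Reachable i0 i

theorem mem_clusterOf (A : ι → MvPolynomial σ k) (p : J → MvPolynomial σ k) (e : ι → J → ℕ)
    (i0 i : ι) : i ∈ clusterOf A p e i0 ↔ (clusterGraph A p e).Reachable i0 i := by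
  simp [clusterOf]

theorem clusterOf_nonempty (A : ι → MvPolynomial σ k) (p : J → MvPolynomial σ k)
    (e : ι → J → ℕ) (i0 : ι) : (clusterOf A p e i0).Nonempty :=
  ⟨i0, (mem_clusterOf A p e i0 i0).2 (SimpleGraph.Reachable.refl i0)⟩

/-- The exponent of `p j` after division by the common power product of the cluster. -/
noncomputable def redExp (A : ι → MvPolynomial σ k) (p : J → MvPolynomial σ k) (e : ι → J → ℕ)
    (i0 i : ι) (j : J) : ℕ :=
  e i j - (clusterOf A p e i0).inf' (clusterOf_nonempty A p e i0) (fun i' => e i' j)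

theorem walk_bound (A : ι → MvPolynomial σ k) (p : J → MvPolynomial σ k) (e : ι → J → ℕ)
    (j : J) (hj : 1 ≤ (p j).totalDegree) {u v : ι} (w : (clusterGraph A p e).Walk u v) :
    e u j - e v j ≤ w.length * bound A p := by
  induction w with
  | nil => simp
  | @cons u v w h q ih =>
    rw [SimpleGraph.Walk.length_cons, add_mul, one_mul]
    have h1 : (e u j - e v j) * (p j).totalDegree ≤ gap p e u v :=
      Finset.single_le_sum (f := fun j => (e u j - e v j) * (p j).totalDegree)
        (fun _ _ => Nat.zero_le _) (Finset.mem_univ j)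
    have h2 : (e u j - e v j) * 1 ≤ (e u j - e v j) * (p j).totalDegree :=
      Nat.mul_le_mul_left _ hj
    have h3 := h.2.1
    omega

/-- Degree reduction. -/
theorem reduce [CharZero k] (A : ι → MvPolynomial σ k) (p : J → MvPolynomial σ k)
    (e : ι → J → ℕ) (hp : ∀ j, 1 ≤ (p j).totalDegree)
    (hcop : Pairwise fun i j => IsRelPrime (p i) (p j)) :
    (∑ i, A i * ∏ j, p j ^ e i j = 0 ↔
      ∀ i0, ∑ i ∈ clusterOf A p e i0, A i * ∏ j, p j ^ redExp A p e i0 i j = 0) ∧
    ∀ i0, ∀ i ∈ clusterOf A p e i0, ∀ j,
      redExp A p e i0 i j ≤ (Fintype.card ι - 1) * bound A p := by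
  classical
  have hp0 : ∀ j, p j ≠ 0 := by
    intro j h; have := hp j; rw [h, totalDegree_zero] at this; omega
  have hfac : ∀ i0, ∑ i ∈ clusterOf A p e i0, term A p e i
      = (∏ j, p j ^ ((clusterOf A p e i0).inf' (clusterOf_nonempty A p e i0) (fun i' => e i' j)))
        * ∑ i ∈ clusterOf A p e i0, A i * ∏ j, p j ^ redExp A p e i0 i j := by
    intro i0
    rw [Finset.mul_sum]
    apply Finset.sum_congr rfl
    intro i hi
    rw [term, mul_left_comm, ← Finset.prod_mul_distrib]
    congr 1
    apply Finset.prod_congr rfl
    intro j _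
    rw [← pow_add]
    congr 1
    rw [redExp]
    have : (clusterOf A p e i0).inf' (clusterOf_nonempty A p e i0) (fun i' => e i' j) ≤ e i j :=
      Finset.inf'_le (fun i' => e i' j) hi
    omega
  refine ⟨⟨?_, ?_⟩, ?_⟩
  · intro h i0
    have h1 := cluster A p e hp0 hcop (fun i => (clusterGraph A p e).connectedComponentMk i)
      (by
        intro i i' h1 h2
        by_cases hii : i = i'
        · rw [hii]
        · exact SimpleGraph.ConnectedComponent.sound
            (SimpleGraph.Adj.reachable (G := clusterGraph A p e) ⟨hii, h1, h2⟩))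
      _ (fun _ => 1) rfl (by simpa [term] using h)
      ((clusterGraph A p e).connectedComponentMk i0)
    have h2 : (Finset.univ.filter fun i => (clusterGraph A p e).connectedComponentMk i
        = (clusterGraph A p e).connectedComponentMk i0) = clusterOf A p e i0 := by
      ext i
      rw [mem_clusterOf]
      simp only [Finset.mem_filter, Finset.mem_univ, true_and]
      rw [SimpleGraph.ConnectedComponent.eq]
      exact ⟨fun h => h.symm, fun h => h.symm⟩
    rw [h2] at h1
    simp only [one_smul] at h1
    rw [hfac] at h1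
    exact (mul_eq_zero.1 h1).resolve_left
      (Finset.prod_ne_zero_iff.2 fun j _ => pow_ne_zero _ (hp0 j))
  · intro h
    have h1 : ∀ i0, ∑ i ∈ clusterOf A p e i0, term A p e i = 0 := by
      intro i0; rw [hfac, h i0, mul_zero]
    have h2 : ∑ i, term A p e i
        = ∑ c ∈ (Finset.univ : Finset ι).image (clusterGraph A p e).connectedComponentMk,
          ∑ i with (clusterGraph A p e).connectedComponentMk i = c, term A p e i :=
      (Finset.sum_fiberwise_of_maps_to (fun i _ => Finset.mem_image_of_mem _ (Finset.mem_univ i))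
        _).symm
    change ∑ i, term A p e i = 0
    rw [h2]
    apply Finset.sum_eq_zero
    intro c hc
    obtain ⟨i0, -, rfl⟩ := Finset.mem_image.1 hc
    have h3 : (Finset.univ.filter fun i => (clusterGraph A p e).connectedComponentMk i
        = (clusterGraph A p e).connectedComponentMk i0) = clusterOf A p e i0 := by
      ext i
      rw [mem_clusterOf]
      simp only [Finset.mem_filter, Finset.mem_univ, true_and]
      rw [SimpleGraph.ConnectedComponent.eq]
      exact ⟨fun h => h.symm, fun h => h.symm⟩
    rw [h3]; exact h1 i0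
  · intro i0 i hi j
    obtain ⟨i1, hi1, h1⟩ := Finset.exists_mem_eq_inf' (clusterOf_nonempty A p e i0)
      (fun i' => e i' j)
    rw [redExp, h1]
    rw [mem_clusterOf] at hi hi1
    obtain ⟨w⟩ := hi.symm.trans hi1
    have h2 := walk_bound A p e j (hp j) w.toPath.1
    have h3 := w.toPath.2.length_lt
    refine h2.trans (Nat.mul_le_mul_right _ ?_)
    omega

end Pool.Agent.Helper12_Clust
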