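import Pool.Agent.Helper12_Clust.Deriv

set_option autoImplicit false

/-! Generalised Wronskians: linearly independent polynomials have a nonvanishing one. -/

namespace Pool.Agent.Helper12_Clust

open MvPolynomial

variable {σ k : Type} [Field k]

/-- Linearly independent polynomials have a nonvanishing generalised Wronskian. -/
theorem exists_wronskian [CharZero k] : ∀ (n : ℕ) (T : Fin n → MvPolynomial σ k),
    LinearIndependent k T → ∃ l : Fin n → List σ, (∀ a, (l a).length ≤ a) ∧
      (Matrix.of fun a j => D (l a) (T j)).det ≠ 0 := by
  intro n
  induction n with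
  | zero => intro T _; exact ⟨fun _ => [], fun a => a.elim0, by simp⟩
  | succ n ih =>
    intro T hT
    obtain ⟨l', hl', hdet⟩ := ih (fun j => T j.castSucc) (hT.comp _ (Fin.castSucc_injective n))
    set N : Matrix (Fin n) (Fin (n + 1)) (MvPolynomial σ k) :=
      Matrix.of fun a j => D (l' a) (T j) with hN
    set c : Fin (n + 1) → MvPolynomial σ k := fun j =>
      (-1) ^ (n + (j : ℕ)) * (N.submatrix id j.succAbove).det with hc
    have hexp : ∀ l : List σ,
        (Matrix.of fun a j => D (Fin.snoc (α := fun _ => List σ) l' l a) (T j)).det
          = ∑ j, c j * D l (T j) := by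
      intro l
      rw [Matrix.det_succ_row _ (Fin.last n)]
      apply Finset.sum_congr rfl
      intro j _
      rw [hc]
      simp only [Fin.val_last, Matrix.of_apply, Fin.snoc_last]
      have : (Matrix.submatrix (Matrix.of fun a j => D (Fin.snoc (α := fun _ => List σ) l' l a) (T j))
          (Fin.last n).succAbove j.succAbove) = N.submatrix id j.succAbove := by
        ext a b
        simp [hN, Fin.succAbove_last]
      rw [this]; ring
    have hlast : c (Fin.last n) ≠ 0 := by
      rw [hc]
      simp only [Fin.val_last]
      refine mul_ne_zero (pow_ne_zero _ (by simp)) ?_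
      have : N.submatrix id (Fin.last n).succAbove
          = Matrix.of fun a j => D (l' a) (T j.castSucc) := by
        ext a b; simp [hN, Fin.succAbove_last]
      rw [this]; exact hdet
    clear_value c
    by_contra hcon
    push Not at hcon
    have hall : ∀ l : List σ, l.length ≤ n → ∑ j, c j * D l (T j) = 0 := by
      intro l hl
      rw [← hexp]
      apply hcon
      intro a
      refine Fin.lastCases ?_ (fun a => ?_) a
      · simpa using hl
      · simpa using hl' a
    have hder : ∀ (i : σ) (l : List σ), l.length + 1 ≤ n →
        ∑ j, pderiv i (c j) * D l (T j) = 0 := by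
      intro i l hl
      have h1 := congrArg (pderiv i) (hall l (by omega))
      have h2 := hall (i :: l) (by simpa using hl)
      rw [map_sum, map_zero] at h1
      have h3 : ∑ j, (c j * pderiv i (D l (T j)) + pderiv i (c j) * D l (T j)) = 0 := by
        rw [← h1]
        apply Finset.sum_congr rfl
        intro j _
        rw [pderiv_mul]; ring
      rw [Finset.sum_add_distrib] at h3
      have h4 : ∑ j, c j * pderiv i (D l (T j)) = 0 := h2
      rw [h4, zero_add] at h3
      exact h3
    have hE : ∀ (i : σ) (j : Fin (n + 1)),
        c (Fin.last n) * pderiv i (c j) = c j * pderiv i (c (Fin.last n)) := by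
      intro i
      set E : Fin (n + 1) → MvPolynomial σ k := fun j =>
        c (Fin.last n) * pderiv i (c j) - c j * pderiv i (c (Fin.last n)) with hEd
      have hEl : E (Fin.last n) = 0 := by rw [hEd]; simp only; ring
      have h1 : ∀ l : List σ, l.length + 1 ≤ n → ∑ j, E j * D l (T j) = 0 := by
        intro l hl
        have h2 := hder i l hl
        have h3 := hall l (by omega)
        calc ∑ j, E j * D l (T j)
            = c (Fin.last n) * (∑ j, pderiv i (c j) * D l (T j))
              - pderiv i (c (Fin.last n)) * ∑ j, c j * D l (T j) := by
                rw [Finset.mul_sum, Finset.mul_sum, ← Finset.sum_sub_distrib]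
                apply Finset.sum_congr rfl
                intro j _
                rw [hEd]; ring
          _ = 0 := by rw [h2, h3]; ring
      have h2 : (Matrix.of fun a j => D (l' a) (T (Fin.castSucc j))).mulVec
          (fun j => E j.castSucc) = 0 := by
        ext1 a
        rw [Matrix.mulVec, dotProduct]
        simp only [Matrix.of_apply, Pi.zero_apply]
        have h3 := h1 (l' a) (by have := hl' a; have := a.2; omega)
        rw [Fin.sum_univ_castSucc, hEl, zero_mul, add_zero] at h3
        rw [← h3]
        apply Finset.sum_congr rfl
        intro j _; ring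
      have h3 := Matrix.eq_zero_of_mulVec_eq_zero hdet h2
      intro j
      refine Fin.lastCases ?_ (fun j => ?_) j
      · ring
      · exact sub_eq_zero.1 (congrFun h3 j)
    choose d hd using fun j => eq_C_mul_of_wronskian hlast (fun i => hE i j)
    have h0 := hall [] (by simp)
    have h1 : c (Fin.last n) * ∑ j, d j • T j = 0 := by
      rw [Finset.mul_sum, ← h0]
      apply Finset.sum_congr rfl
      intro j _
      rw [D_nil, ← C_mul']
      conv_rhs => rw [hd j]
      ring
    have h2 := (mul_eq_zero.1 h1).resolve_left hlast
    have h3 := (Fintype.linearIndependent_iff.1 hT) d h2 (Fin.last n)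
    have h4 := hd (Fin.last n)
    rw [h3, C_0, zero_mul] at h4
    exact hlast h4

end Pool.Agent.Helper12_Clust
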